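import Pool.Agent.Helper70.RC.Goals

/-!
# TW-RCALG: the relative algebraic closure in a real closed field is real closed
-/

namespace Pool.Agent.Helper51.RC

open Polynomial Pool.Agent.Helper70.RC

universe u v

theorem sumsq_map {A : Type u} {B : Type v} [CommRing A] [CommRing B] (φ : A →+* B) {s : A}
    (hs : IsSumSq s) : IsSumSq (φ s) := by
  induction hs with
  | zero => rw [map_zero]; exact IsSumSq.zero
  | sq_add a _ ih => rw [map_add, map_mul]; exact IsSumSq.sq_add (φ a) ih

theorem rcalg : RCALG.{u, v} := by
  intro F M _ _ _ _
  refine { one_add_ne_zero := ?_, isSquare_or_isSquare_neg := ?_,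
           exists_isRoot_of_odd_natDegree := ?_ }
  · intro s hs h
    have h1 := sumsq_map (algebraMap (algebraicClosure F M) M) hs
    have h2 := congrArg (algebraMap (algebraicClosure F M) M) h
    rw [map_add, map_one, map_zero] at h2
    exact IsSemireal.one_add_ne_zero h1 h2
  · have key : ∀ x : algebraicClosure F M, IsSquare (x : M) → IsSquare x := by
      intro x hx
      obtain ⟨y, hy⟩ := hx
      have hxa : IsAlgebraic F (x : M) := mem_algebraicClosure_iff.1 x.2
      have hya : IsAlgebraic F y := by
        rw [hy, ← pow_two] at hxa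
        exact hxa.of_pow (by norm_num)
      exact ⟨⟨y, mem_algebraicClosure_iff.2 hya⟩, Subtype.ext hy⟩
    intro x
    rcases IsRealClosed.isSquare_or_isSquare_neg (x : M) with h | h
    · exact Or.inl (key x h)
    · exact Or.inr (key (-x) (by simpa using h))
  · intro f hf
    have hdeg : (f.map (algebraMap (algebraicClosure F M) M)).natDegree = f.natDegree :=
      natDegree_map _
    obtain ⟨y, hy⟩ := IsRealClosed.exists_isRoot_of_odd_natDegree (R := M)
      (f := f.map (algebraMap (algebraicClosure F M) M)) (by rw [hdeg]; exact hf)
    have hf0 : f ≠ 0 := by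
      rintro rfl
      simp at hf
    have hyE : IsAlgebraic (algebraicClosure F M) y :=
      ⟨f, hf0, by rw [aeval_def, ← eval_map]; exact hy⟩
    have hyF : IsAlgebraic F y := by
      haveI : Algebra.IsAlgebraic F (algebraicClosure F M) := inferInstance
      exact hyE.restrictScalars F
    refine ⟨⟨y, mem_algebraicClosure_iff.2 hyF⟩, ?_⟩
    apply (algebraMap (algebraicClosure F M) M).injective
    rw [map_zero, ← eval_map_apply]
    exact hy

end Pool.Agent.Helper51.RC
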